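import Pool.Agent.Helper68_BAN.Stmt2

set_option autoImplicit false

/-!
BAS2: basic facts on gauges and on the isometric embeddings (squad BAN, helper48).
-/

namespace Pool.Agent.BAN.H48

open Filter Topology Set Metric
open scoped NNReal

section Gauge

variable {V : Type} [NormedAddCommGroup V] [InnerProductSpace ℝ V] [FiniteDimensional ℝ V]
  {φ : V → ℝ}

theorem gau_zero (h : Gau φ) : φ 0 = 0 := by
  have := h.hom 0 0 le_rfl
  simpa using this

theorem gau_nonneg (h : Gau φ) (x : V) : 0 ≤ φ x := by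
  by_cases hx : x = 0
  · rw [hx, gau_zero h]
  · exact (h.pos x hx).le

theorem gau_convex (h : Gau φ) : ConvexOn ℝ univ φ := by
  refine ⟨convex_univ, fun x _ y _ a b ha hb _ => ?_⟩
  calc φ (a • x + b • y) ≤ φ (a • x) + φ (b • y) := h.sub _ _
    _ = a • φ x + b • φ y := by rw [h.hom a x ha, h.hom b y hb]; rfl

theorem gau_cont (h : Gau φ) : Continuous φ := (gau_convex h).locallyLipschitz.continuous

theorem gau_upper (h : Gau φ) : ∃ C : ℝ, 0 < C ∧ ∀ v, φ v ≤ C * ‖v‖ := by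
  obtain ⟨C, hC⟩ := (isCompact_sphere (0 : V) 1).exists_bound_of_continuousOn
    (gau_cont h).continuousOn
  refine ⟨max C 1, lt_of_lt_of_le one_pos (le_max_right _ _), fun v => ?_⟩
  by_cases hv : v = 0
  · rw [hv, gau_zero h, norm_zero, mul_zero]
  · have hv' : 0 < ‖v‖ := norm_pos_iff.2 hv
    have h1 : ‖v‖⁻¹ • v ∈ sphere (0 : V) 1 := by
      rw [mem_sphere_zero_iff_norm, norm_smul, norm_inv, norm_norm, inv_mul_cancel₀ hv'.ne']
    have h2 := hC _ h1
    have h3 : φ v = ‖v‖ * φ (‖v‖⁻¹ • v) := by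
      rw [h.hom _ _ (inv_nonneg.2 hv'.le), ← mul_assoc, mul_inv_cancel₀ hv'.ne', one_mul]
    rw [h3, mul_comm]
    refine mul_le_mul_of_nonneg_right ?_ hv'.le
    exact ((le_abs_self _).trans h2).trans (le_max_left _ _)

theorem gau_sub (h : Gau φ) (x y : V) : φ x - φ y ≤ φ (x - y) := by
  have := h.sub (x - y) y
  rw [sub_add_cancel] at this
  linarith

theorem gau_abs_sub (h : Gau φ) {C : ℝ} (hC : ∀ v, φ v ≤ C * ‖v‖) (x y : V) :
    |φ x - φ y| ≤ C * ‖x - y‖ := by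
  rw [abs_le]
  constructor
  · have h1 := gau_sub h y x
    have h2 := hC (y - x)
    rw [norm_sub_rev] at h2
    linarith
  · exact (gau_sub h x y).trans (hC _)

end Gauge

section Main

variable {V X : Type} [NormedAddCommGroup V] [InnerProductSpace ℝ V]
    [FiniteDimensional ℝ V] [NormedAddCommGroup X] [InnerProductSpace ℝ X]
    [FiniteDimensional ℝ X] {φ : V → ℝ} {Φ : X → X → ℝ}

theorem symR_cgrp (h : Gau φ)
    (hiso : ∀ g : V →L[ℝ] V, (∀ v, φ (g v) = φ v) → ∀ v, ‖g v‖ = ‖v‖) :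
    CGrp (𝕜 := ℝ) (SymR φ) where
  one := fun v => rfl
  mul := fun g hg k hk v => by
    show φ (g (k v)) = φ v
    rw [hg, hk]
  inv := fun g hg => by
    have hinj : Function.Injective (g : V →ₗ[ℝ] V) := by
      rw [injective_iff_map_eq_zero]
      intro v hv
      have h1 := hiso g hg v
      have h2 : g v = 0 := hv
      rw [h2, norm_zero] at h1
      exact norm_eq_zero.1 h1.symm
    set e := LinearEquiv.ofInjectiveEndo (g : V →ₗ[ℝ] V) hinj with he
    have he1 : ∀ v, e v = g v := fun v => rfl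
    have h3 : ∀ v, (LinearMap.toContinuousLinearMap (e.symm : V →ₗ[ℝ] V)) (g v) = v := by
      intro v
      show e.symm (g v) = v
      rw [← he1, LinearEquiv.symm_apply_apply]
    have h4 : ∀ v, g ((LinearMap.toContinuousLinearMap (e.symm : V →ₗ[ℝ] V)) v) = v := by
      intro v
      show g (e.symm v) = v
      rw [← he1, LinearEquiv.apply_symm_apply]
    refine ⟨LinearMap.toContinuousLinearMap (e.symm : V →ₗ[ℝ] V), ?_, ?_, ?_⟩
    · intro v
      rw [← hg, h4]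
    · ext v
      exact h3 v
    · ext v
      exact h4 v
  closed := by
    have : SymR φ = ⋂ v : V, {g : V →L[ℝ] V | φ (g v) = φ v} := by
      ext g
      simp [SymR]
    rw [this]
    refine isClosed_iInter fun v => isClosed_eq ?_ continuous_const
    exact (gau_cont h).comp (ContinuousLinearMap.apply ℝ V v).continuous
  iso := fun g hg => hiso g hg

theorem lower_one (h : Gau φ) : ∃ c : ℝ, 0 < c ∧ ∀ v, c * ‖v‖ ≤ φ v := by
  by_cases hne : (sphere (0 : V) 1).Nonempty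
  · obtain ⟨v0, hv0, hmin⟩ := (isCompact_sphere (0 : V) 1).exists_isMinOn hne
      (gau_cont h).continuousOn
    have hv0' : v0 ≠ 0 := by
      rintro rfl
      simp at hv0
    refine ⟨φ v0, h.pos v0 hv0', fun v => ?_⟩
    by_cases hv : v = 0
    · rw [hv, gau_zero h, norm_zero, mul_zero]
    · have hv' : 0 < ‖v‖ := norm_pos_iff.2 hv
      have h1 : ‖v‖⁻¹ • v ∈ sphere (0 : V) 1 := by
        rw [mem_sphere_zero_iff_norm, norm_smul, norm_inv, norm_norm, inv_mul_cancel₀ hv'.ne']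
      have h2 : φ v0 ≤ φ (‖v‖⁻¹ • v) := hmin h1
      have h3 : φ v = φ (‖v‖⁻¹ • v) * ‖v‖ := by
        rw [h.hom _ _ (inv_nonneg.2 hv'.le), mul_comm, ← mul_assoc, mul_inv_cancel₀ hv'.ne',
          one_mul]
      rw [h3]
      exact mul_le_mul_of_nonneg_right h2 hv'.le
  · refine ⟨1, one_pos, fun v => ?_⟩
    by_cases hv : v = 0
    · rw [hv, gau_zero h, norm_zero, mul_zero]
    · exfalso
      have hv' : 0 < ‖v‖ := norm_pos_iff.2 hv
      refine hne ⟨‖v‖⁻¹ • v, ?_⟩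
      rw [mem_sphere_zero_iff_norm, norm_smul, norm_inv, norm_norm, inv_mul_cancel₀ hv'.ne']

theorem family (hX : 0 < Module.finrank ℝ X) (gx : ∀ ν : X, ‖ν‖ = 1 → Gau (Φ ν))
    (lip : ∃ L : ℝ, 0 ≤ L ∧ ∀ ν ν' : X, ‖ν‖ = 1 → ‖ν'‖ = 1 → ∀ x : X,
      |Φ ν x - Φ ν' x| ≤ L * ‖ν - ν'‖ * ‖x‖) :
    ∃ c C : ℝ, 0 < c ∧ 0 < C ∧ ∀ ν : X, ‖ν‖ = 1 → ∀ x, c * ‖x‖ ≤ Φ ν x ∧ Φ ν x ≤ C * ‖x‖ := by
  have : Nontrivial X := Module.finrank_pos_iff.1 hX
  obtain ⟨L, hL0, hL⟩ := lip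
  obtain ⟨ν0, hν0⟩ : ∃ ν0 : X, ‖ν0‖ = 1 := by
    obtain ⟨ν0, h0⟩ := (NormedSpace.sphere_nonempty (x := (0 : X)) (r := 1)).2 zero_le_one
    exact ⟨ν0, by simpa using h0⟩
  obtain ⟨C0, hC0, hC⟩ := gau_upper (gx ν0 hν0)
  have hup : ∀ ν : X, ‖ν‖ = 1 → ∀ x, Φ ν x ≤ (C0 + 2 * L) * ‖x‖ := by
    intro ν hν x
    have h1 := (abs_le.1 (hL ν ν0 hν hν0 x)).2
    have h2 := hC x
    have h3 : ‖ν - ν0‖ ≤ 2 := by
      have := norm_sub_le ν ν0
      rw [hν, hν0] at this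
      linarith
    have h4 : L * ‖ν - ν0‖ * ‖x‖ ≤ L * 2 * ‖x‖ := by gcongr
    nlinarith
  have hC1 : 0 < C0 + 2 * L := by positivity
  have hcont : ContinuousOn (fun p : X × X => Φ p.1 p.2)
      (sphere (0 : X) 1 ×ˢ sphere (0 : X) 1) := by
    have : LipschitzOnWith (Real.toNNReal (L + (C0 + 2 * L))) (fun p : X × X => Φ p.1 p.2)
        (sphere (0 : X) 1 ×ˢ sphere (0 : X) 1) := by
      refine LipschitzOnWith.of_dist_le_mul fun p hp q hq => ?_
      have hp1 : ‖p.1‖ = 1 := by simpa using hp.1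
      have hp2 : ‖p.2‖ = 1 := by simpa using hp.2
      have hq1 : ‖q.1‖ = 1 := by simpa using hq.1
      rw [Real.coe_toNNReal _ (by positivity), Real.dist_eq]
      have h1 : |Φ p.1 p.2 - Φ q.1 p.2| ≤ L * ‖p.1 - q.1‖ * ‖p.2‖ := hL _ _ hp1 hq1 _
      have h2 : |Φ q.1 p.2 - Φ q.1 q.2| ≤ (C0 + 2 * L) * ‖p.2 - q.2‖ :=
        gau_abs_sub (gx _ hq1) (hup _ hq1) _ _
      have h3 : ‖p.1 - q.1‖ ≤ dist p q := by
        rw [← dist_eq_norm]; exact le_max_left _ _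
      have h4 : ‖p.2 - q.2‖ ≤ dist p q := by
        rw [← dist_eq_norm]; exact le_max_right _ _
      have h5 : |Φ p.1 p.2 - Φ q.1 q.2| ≤ |Φ p.1 p.2 - Φ q.1 p.2| + |Φ q.1 p.2 - Φ q.1 q.2| :=
        abs_sub_le _ _ _
      rw [hp2, mul_one] at h1
      have h6 : L * ‖p.1 - q.1‖ ≤ L * dist p q := by gcongr
      have h7 : (C0 + 2 * L) * ‖p.2 - q.2‖ ≤ (C0 + 2 * L) * dist p q := by gcongr
      nlinarith
    exact this.continuousOn
  obtain ⟨p0, hp0, hmin⟩ := ((isCompact_sphere (0 : X) 1).prod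
    (isCompact_sphere (0 : X) 1)).exists_isMinOn
      ⟨(ν0, ν0), by simp [hν0]⟩ hcont
  have h01 : ‖p0.1‖ = 1 := by simpa using hp0.1
  have h02 : ‖p0.2‖ = 1 := by simpa using hp0.2
  have h03 : p0.2 ≠ 0 := by
    intro h
    rw [h, norm_zero] at h02
    exact zero_ne_one h02
  refine ⟨Φ p0.1 p0.2, C0 + 2 * L, (gx _ h01).pos _ h03, hC1, fun ν hν x =>
    ⟨?_, hup ν hν x⟩⟩
  have h := gx ν hν
  by_cases hx : x = 0
  · rw [hx, gau_zero h, norm_zero, mul_zero]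
  · have hx' : 0 < ‖x‖ := norm_pos_iff.2 hx
    have h1 : ‖x‖⁻¹ • x ∈ sphere (0 : X) 1 := by
      rw [mem_sphere_zero_iff_norm, norm_smul, norm_inv, norm_norm, inv_mul_cancel₀ hx'.ne']
    have hνm : ν ∈ sphere (0 : X) 1 := by simpa using hν
    have h2 : Φ p0.1 p0.2 ≤ Φ ν (‖x‖⁻¹ • x) := hmin (show (ν, ‖x‖⁻¹ • x) ∈ _ from ⟨hνm, h1⟩)
    have h3 : Φ ν x = Φ ν (‖x‖⁻¹ • x) * ‖x‖ := by
      rw [h.hom _ _ (inv_nonneg.2 hx'.le), mul_comm, ← mul_assoc, mul_inv_cancel₀ hx'.ne',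
        one_mul]
    rw [h3]
    exact mul_le_mul_of_nonneg_right h2 hx'.le

theorem bas2 : BAS2Stmt := by
  intro V X _ _ _ _ _ _ φ Φ D
  refine ⟨symR_cgrp D.gv D.iso, ?_⟩
  obtain ⟨c1, hc1, hc1'⟩ := lower_one D.gv
  obtain ⟨C1, hC1, hC1'⟩ := gau_upper D.gv
  obtain ⟨c2, C2, hc2, hC2, h2⟩ := family (by rw [D.dim]; omega) D.gx D.lip
  -- common constants
  set c : ℝ := min c1 c2 with hc
  set C : ℝ := max C1 C2 with hC
  have hc0 : 0 < c := lt_min hc1 hc2
  have hC0 : 0 < C := lt_of_lt_of_le hC1 (le_max_left _ _)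
  have hv : ∀ v, c * ‖v‖ ≤ φ v ∧ φ v ≤ C * ‖v‖ := fun v =>
    ⟨(mul_le_mul_of_nonneg_right (min_le_left _ _) (norm_nonneg _)).trans (hc1' v),
      (hC1' v).trans (mul_le_mul_of_nonneg_right (le_max_left _ _) (norm_nonneg _))⟩
  have hx : ∀ ν : X, ‖ν‖ = 1 → ∀ x, c * ‖x‖ ≤ Φ ν x ∧ Φ ν x ≤ C * ‖x‖ := fun ν hν x =>
    ⟨(mul_le_mul_of_nonneg_right (min_le_right _ _) (norm_nonneg _)).trans (h2 ν hν x).1,
      (h2 ν hν x).2.trans (mul_le_mul_of_nonneg_right (le_max_right _ _) (norm_nonneg _))⟩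
  have hA1 : ∀ (ν : X) (A : V →L[ℝ] X), ‖ν‖ = 1 → A ∈ PR φ Φ ν → ∀ v, c / C * ‖v‖ ≤ ‖A v‖ := by
    intro ν A hν hA v
    have h3 := (hx ν hν (A v)).2
    rw [hA.1 v] at h3
    have h4 := (hv v).1
    rw [div_mul_eq_mul_div, div_le_iff₀ hC0]
    linarith
  have hA2 : ∀ (ν : X) (A : V →L[ℝ] X), ‖ν‖ = 1 → A ∈ PR φ Φ ν → ‖A‖ ≤ C / c := by
    intro ν A hν hA
    refine ContinuousLinearMap.opNorm_le_bound _ (by positivity) fun v => ?_
    have h3 := (hx ν hν (A v)).1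
    rw [hA.1 v] at h3
    have h4 := (hv v).2
    rw [div_mul_eq_mul_div, le_div_iff₀ hc0]
    linarith
  refine ⟨min c (c / C), max C (C / c), lt_min hc0 (by positivity),
    lt_of_lt_of_le hC0 (le_max_left _ _), fun v => ⟨?_, ?_⟩, fun ν hν x => ⟨?_, ?_⟩,
    fun ν A hν hA => ⟨fun v => ?_, ?_⟩, fun ν A hν hA x hx0 => ?_⟩
  · exact (mul_le_mul_of_nonneg_right (min_le_left _ _) (norm_nonneg _)).trans (hv v).1
  · exact (hv v).2.trans (mul_le_mul_of_nonneg_right (le_max_left _ _) (norm_nonneg _))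
  · exact (mul_le_mul_of_nonneg_right (min_le_left _ _) (norm_nonneg _)).trans (hx ν hν x).1
  · exact (hx ν hν x).2.trans (mul_le_mul_of_nonneg_right (le_max_left _ _) (norm_nonneg _))
  · exact (mul_le_mul_of_nonneg_right (min_le_right _ _) (norm_nonneg _)).trans (hA1 ν A hν hA v)
  · exact (hA2 ν A hν hA).trans (le_max_right _ _)
  · -- surjectivity onto the orthogonal complement
    have hinj : Function.Injective (A : V →ₗ[ℝ] X) := by
      rw [injective_iff_map_eq_zero]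
      intro v hv0
      have h3 := hA1 ν A hν hA v
      have h4 : A v = 0 := hv0
      rw [h4, norm_zero] at h3
      have h5 : 0 < c / C := by positivity
      have h6 : ‖v‖ ≤ 0 := by
        by_contra h7
        push Not at h7
        have := mul_pos h5 h7
        linarith
      exact norm_le_zero_iff.1 h6
    have hν0 : ν ≠ 0 := by
      intro h
      rw [h, norm_zero] at hν
      exact zero_ne_one hν
    have : Fact (Module.finrank ℝ X = Module.finrank ℝ V + 1) := ⟨D.dim⟩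
    have h8 : Module.finrank ℝ (Submodule.span ℝ {ν})ᗮ = Module.finrank ℝ V :=
      Submodule.finrank_orthogonal_span_singleton hν0
    have h9 : Module.finrank ℝ (LinearMap.range (A : V →ₗ[ℝ] X)) = Module.finrank ℝ V :=
      LinearMap.finrank_range_of_inj hinj
    have h10 : LinearMap.range (A : V →ₗ[ℝ] X) ≤ (Submodule.span ℝ {ν})ᗮ := by
      rintro _ ⟨v, rfl⟩
      rw [Submodule.mem_orthogonal_singleton_iff_inner_right]
      exact hA.2 v
    have h11 := Submodule.eq_of_le_of_finrank_eq h10 (by rw [h8, h9])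
    have h12 : x ∈ (Submodule.span ℝ {ν})ᗮ := by
      rw [Submodule.mem_orthogonal_singleton_iff_inner_right]
      exact hx0
    rw [← h11] at h12
    obtain ⟨v, hv1⟩ := h12
    exact ⟨v, hv1⟩

end Main

end Pool.Agent.BAN.H48
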