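import Pool.Agent.Helper48_BAN.Bas2

set_option autoImplicit false

/-!
NEAR2: the endomorphism `A'⁺ A` is close to the symmetry group (squad BAN, helper48).
-/

namespace Pool.Agent.BAN.H48

theorem near2 (hEB : EB2Stmt) (hBAS : BAS2Stmt) : NEAR2Stmt := by
  intro V X _ _ _ _ _ _ φ Φ D L R hR
  obtain ⟨-, c, C, hc, hC, -, hx, hA, hsur⟩ := hBAS V X φ Φ D
  obtain ⟨L0, hL0, hlip⟩ := D.lip
  obtain ⟨C1, hC1, hEB'⟩ := hEB V φ D.gv D.iso (L * C)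
  set C2 : ℝ := C * C + L0 * C with hC2
  have hC20 : 0 ≤ C2 := by positivity
  refine ⟨max (C1 * C2) (C + C * (C1 * C2)), le_max_of_le_left (by positivity), ?_⟩
  intro ν ν' A A' hν hν' hAν hAν'
  obtain ⟨hR1, hR2, hR3⟩ := hR ν' A' hν' hAν'
  have hAn : ‖A‖ ≤ C := (hA ν A hν hAν).2
  have hAn' : ‖A'‖ ≤ C := (hA ν' A' hν' hAν').2
  set g : V →L[ℝ] V := (R A').comp A with hg
  -- `A' g v` is the projection of `A v`
  have hproj : ∀ v, A' (g v) = A v - (inner ℝ ν' (A v) : ℝ) • ν' := by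
    intro v
    have h1 : inner ℝ ν' (A v - (inner ℝ ν' (A v) : ℝ) • ν') = 0 := by
      rw [inner_sub_right, inner_smul_right, real_inner_self_eq_norm_sq, hν']
      ring
    obtain ⟨w, hw⟩ := hsur ν' A' hν' hAν' _ h1
    have h2 : R A' ν' = 0 := hR2 ν' fun u => by rw [real_inner_comm]; exact hAν'.2 u
    have h3 : g v = w := by
      show R A' (A v) = w
      have h4 : A v = A' w + (inner ℝ ν' (A v) : ℝ) • ν' := by rw [hw]; abel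
      rw [h4, map_add, hR1, map_smul, h2, smul_zero, add_zero]
    rw [h3, hw]
  have hdiff : ∀ v, ‖A v - A' (g v)‖ ≤ C * ‖ν - ν'‖ * ‖v‖ := by
    intro v
    rw [hproj v, sub_sub_cancel, norm_smul, hν', mul_one, Real.norm_eq_abs]
    have h1 : inner ℝ ν' (A v) = inner ℝ (ν' - ν) (A v) := by
      rw [inner_sub_left, hAν.2 v, sub_zero]
    rw [h1]
    calc |inner ℝ (ν' - ν) (A v)| ≤ ‖ν' - ν‖ * ‖A v‖ := abs_real_inner_le_norm _ _
      _ ≤ ‖ν' - ν‖ * (C * ‖v‖) := by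
          gcongr
          exact (A.le_opNorm v).trans (mul_le_mul_of_nonneg_right hAn (norm_nonneg _))
      _ = C * ‖ν - ν'‖ * ‖v‖ := by rw [norm_sub_rev]; ring
  have hAv : ∀ v, ‖A v‖ ≤ C * ‖v‖ := fun v =>
    (A.le_opNorm v).trans (mul_le_mul_of_nonneg_right hAn (norm_nonneg _))
  have hgn : ‖g‖ ≤ L * C := by
    calc ‖g‖ ≤ ‖R A'‖ * ‖A‖ := ContinuousLinearMap.opNorm_comp_le _ _
      _ ≤ L * C := mul_le_mul hR3 hAn (norm_nonneg _) ((norm_nonneg _).trans hR3)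
  have hphi : ∀ v, |φ (g v) - φ v| ≤ C2 * ‖ν - ν'‖ * ‖v‖ := by
    intro v
    rw [← hAν'.1 (g v), ← hAν.1 v]
    have h1 : |Φ ν' (A' (g v)) - Φ ν' (A v)| ≤ C * ‖A' (g v) - A v‖ :=
      gau_abs_sub (D.gx ν' hν') (fun x => (hx ν' hν' x).2) _ _
    have h2 : |Φ ν' (A v) - Φ ν (A v)| ≤ L0 * ‖ν' - ν‖ * ‖A v‖ := hlip ν' ν hν' hν _
    have h3 : |Φ ν' (A' (g v)) - Φ ν (A v)| ≤
        |Φ ν' (A' (g v)) - Φ ν' (A v)| + |Φ ν' (A v) - Φ ν (A v)| := abs_sub_le _ _ _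
    have h4 : ‖A' (g v) - A v‖ ≤ C * ‖ν - ν'‖ * ‖v‖ := by
      rw [norm_sub_rev]; exact hdiff v
    have h5 : L0 * ‖ν' - ν‖ * ‖A v‖ ≤ L0 * ‖ν - ν'‖ * (C * ‖v‖) := by
      rw [norm_sub_rev ν' ν]
      exact mul_le_mul_of_nonneg_left (hAv v) (by positivity)
    have h6 : C * ‖A' (g v) - A v‖ ≤ C * (C * ‖ν - ν'‖ * ‖v‖) :=
      mul_le_mul_of_nonneg_left h4 hC.le
    calc |Φ ν' (A' (g v)) - Φ ν (A v)| ≤ C * (C * ‖ν - ν'‖ * ‖v‖) +
        L0 * ‖ν - ν'‖ * (C * ‖v‖) := by linarith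
      _ = C2 * ‖ν - ν'‖ * ‖v‖ := by rw [hC2]; ring
  obtain ⟨κ, hκ, hκ'⟩ := hEB' g (C2 * ‖ν - ν'‖) hgn (by positivity) hphi
  refine ⟨κ, hκ, ?_, ?_, ?_, ?_⟩
  · refine hκ'.trans ?_
    rw [← mul_assoc]
    exact mul_le_mul_of_nonneg_right (le_max_left _ _) (norm_nonneg _)
  · refine ContinuousLinearMap.opNorm_le_bound _ (by positivity) fun v => ?_
    have h1 : (A - A'.comp κ) v = (A v - A' (g v)) + A' ((g - κ) v) := by
      simp only [ContinuousLinearMap.sub_apply, ContinuousLinearMap.comp_apply, map_sub]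
      abel
    have h2 : ‖A' ((g - κ) v)‖ ≤ C * (C1 * (C2 * ‖ν - ν'‖) * ‖v‖) := by
      calc ‖A' ((g - κ) v)‖ ≤ ‖A'‖ * ‖(g - κ) v‖ := A'.le_opNorm _
        _ ≤ C * (C1 * (C2 * ‖ν - ν'‖) * ‖v‖) := by
            refine mul_le_mul hAn' ?_ (norm_nonneg _) hC.le
            exact ((g - κ).le_opNorm v).trans (mul_le_mul_of_nonneg_right hκ' (norm_nonneg _))
    rw [h1]
    calc ‖A v - A' (g v) + A' ((g - κ) v)‖ ≤ ‖A v - A' (g v)‖ + ‖A' ((g - κ) v)‖ :=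
          norm_add_le _ _
      _ ≤ C * ‖ν - ν'‖ * ‖v‖ + C * (C1 * (C2 * ‖ν - ν'‖) * ‖v‖) := add_le_add (hdiff v) h2
      _ = (C + C * (C1 * C2)) * ‖ν - ν'‖ * ‖v‖ := by ring
      _ ≤ max (C1 * C2) (C + C * (C1 * C2)) * ‖ν - ν'‖ * ‖v‖ := by
          gcongr
          exact le_max_right _ _
  · intro v
    show Φ ν' (A' (κ v)) = φ v
    rw [hAν'.1, hκ]
  · intro v
    exact hAν'.2 (κ v)

end Pool.Agent.BAN.H48
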