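import Pool.Agent.Helper10_BAN.Stmt

set_option autoImplicit false

/-!
BAS: basic facts on norms and on the isometric embeddings, real or complex (squad BAN, helper48).
-/

namespace Pool.Agent.BAN.H48

open Filter Topology Set Metric
open scoped NNReal

section Norm

variable {𝕜 : Type} [RCLike 𝕜] {V : Type} [NormedAddCommGroup V] [InnerProductSpace 𝕜 V]
  [FiniteDimensional 𝕜 V]

theorem sn_upper (φ : Seminorm 𝕜 V) : ∃ C : ℝ, 0 < C ∧ ∀ v, φ v ≤ C * ‖v‖ := by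
  set b := stdOrthonormalBasis 𝕜 V with hb
  have hS : 0 ≤ ∑ i, φ (b i) := Finset.sum_nonneg fun i _ => apply_nonneg φ _
  refine ⟨∑ i, φ (b i) + 1, by positivity, fun v => ?_⟩
  have h1 : φ v ≤ ∑ i, φ ((inner 𝕜 (b i) v : 𝕜) • b i) := by
    conv_lhs => rw [← b.sum_repr' v]
    exact Finset.le_sum_of_subadditive φ (map_zero φ).le (map_add_le_add φ) _ _
  have h2 : ∑ i, φ ((inner 𝕜 (b i) v : 𝕜) • b i) ≤ ∑ i, ‖v‖ * φ (b i) := by
    refine Finset.sum_le_sum fun i _ => ?_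
    rw [map_smul_eq_mul]
    refine mul_le_mul_of_nonneg_right ?_ (apply_nonneg φ _)
    have h3 := norm_inner_le_norm (𝕜 := 𝕜) (b i) v
    rwa [b.norm_eq_one i, one_mul] at h3
  rw [← Finset.mul_sum] at h2
  nlinarith [norm_nonneg v]

theorem sn_abs_sub (φ : Seminorm 𝕜 V) {C : ℝ} (hC : ∀ v, φ v ≤ C * ‖v‖) (x y : V) :
    |φ x - φ y| ≤ C * ‖x - y‖ := by
  have h1 : φ x - φ y ≤ φ (x - y) := by
    have := map_add_le_add φ (x - y) y
    rw [sub_add_cancel] at this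
    linarith
  have h2 : φ y - φ x ≤ φ (y - x) := by
    have := map_add_le_add φ (y - x) x
    rw [sub_add_cancel] at this
    linarith
  have h3 := hC (x - y)
  have h4 := hC (y - x)
  rw [norm_sub_rev] at h4
  rw [abs_le]
  constructor <;> linarith

theorem sn_cont (φ : Seminorm 𝕜 V) : Continuous φ := by
  obtain ⟨C, hC0, hC⟩ := sn_upper φ
  refine (LipschitzWith.of_dist_le_mul (K := ⟨C, hC0.le⟩) fun x y => ?_).continuous
  rw [Real.dist_eq, dist_eq_norm]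
  exact sn_abs_sub φ hC x y

theorem sn_lower (φ : Seminorm 𝕜 V) (hpos : ∀ v : V, v ≠ 0 → 0 < φ v) :
    ∃ c : ℝ, 0 < c ∧ ∀ v, c * ‖v‖ ≤ φ v := by
  have : ProperSpace V := FiniteDimensional.proper_rclike 𝕜 V
  have hnorm : ∀ v : V, v ≠ 0 → (((‖v‖⁻¹ : ℝ) : 𝕜) • v) ∈ sphere (0 : V) 1 := by
    intro v hv
    have hv' : 0 < ‖v‖ := norm_pos_iff.2 hv
    rw [mem_sphere_zero_iff_norm, norm_smul, RCLike.norm_ofReal, abs_of_pos (inv_pos.2 hv'),
      inv_mul_cancel₀ hv'.ne']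
  have h0 : φ 0 = 0 := map_zero φ
  by_cases hne : (sphere (0 : V) 1).Nonempty
  · obtain ⟨v0, hv0, hmin⟩ := (isCompact_sphere (0 : V) 1).exists_isMinOn hne
      (sn_cont φ).continuousOn
    have hv0' : v0 ≠ 0 := by
      rintro rfl
      simp at hv0
    refine ⟨φ v0, hpos v0 hv0', fun v => ?_⟩
    by_cases hv : v = 0
    · rw [hv, h0, norm_zero, mul_zero]
    · have hv' : 0 < ‖v‖ := norm_pos_iff.2 hv
      have h2 : φ v0 ≤ φ (((‖v‖⁻¹ : ℝ) : 𝕜) • v) := hmin (hnorm v hv)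
      rw [map_smul_eq_mul, RCLike.norm_ofReal, abs_of_pos (inv_pos.2 hv')] at h2
      calc φ v0 * ‖v‖ ≤ (‖v‖⁻¹ * φ v) * ‖v‖ := mul_le_mul_of_nonneg_right h2 hv'.le
        _ = φ v := by field_simp
  · refine ⟨1, one_pos, fun v => ?_⟩
    by_cases hv : v = 0
    · rw [hv, h0, norm_zero, mul_zero]
    · exact absurd ⟨_, hnorm v hv⟩ hne

end Norm

section Main

variable {𝕜 : Type} [RCLike 𝕜] {V X : Type} [NormedAddCommGroup V] [InnerProductSpace 𝕜 V]
    [FiniteDimensional 𝕜 V] [NormedAddCommGroup X] [InnerProductSpace 𝕜 X]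
    [FiniteDimensional 𝕜 X]

theorem symG_cgrp (φ : Seminorm 𝕜 V)
    (hiso : ∀ g : V →L[𝕜] V, (∀ v, φ (g v) = φ v) → ∀ v, ‖g v‖ = ‖v‖) :
    CGrp (SymG φ) where
  one := fun v => rfl
  mul := fun g hg k hk v => by
    show φ (g (k v)) = φ v
    rw [hg, hk]
  inv := fun g hg => by
    have hinj : Function.Injective (g : V →ₗ[𝕜] V) := by
      rw [injective_iff_map_eq_zero]
      intro v hv
      have h1 := hiso g hg v
      have h2 : g v = 0 := hv
      rw [h2, norm_zero] at h1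
      exact norm_eq_zero.1 h1.symm
    set e := LinearEquiv.ofInjectiveEndo (g : V →ₗ[𝕜] V) hinj with he
    have he1 : ∀ v, e v = g v := fun v => rfl
    have h3 : ∀ v, (LinearMap.toContinuousLinearMap (e.symm : V →ₗ[𝕜] V)) (g v) = v := by
      intro v
      show e.symm (g v) = v
      rw [← he1, LinearEquiv.symm_apply_apply]
    have h4 : ∀ v, g ((LinearMap.toContinuousLinearMap (e.symm : V →ₗ[𝕜] V)) v) = v := by
      intro v
      show g (e.symm v) = v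
      rw [← he1, LinearEquiv.apply_symm_apply]
    refine ⟨LinearMap.toContinuousLinearMap (e.symm : V →ₗ[𝕜] V), ?_, ?_, ?_⟩
    · intro v
      rw [← hg, h4]
    · ext v
      exact h3 v
    · ext v
      exact h4 v
  closed := by
    have : SymG φ = ⋂ v : V, {g : V →L[𝕜] V | φ (g v) = φ v} := by
      ext g
      simp [SymG]
    rw [this]
    refine isClosed_iInter fun v => isClosed_eq ?_ continuous_const
    exact (sn_cont φ).comp (ContinuousLinearMap.apply 𝕜 V v).continuous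
  iso := fun g hg => hiso g hg

theorem bas : BASStmt := by
  intro 𝕜 _ V X _ _ _ _ _ _ φ Φ D
  refine ⟨symG_cgrp φ D.iso, ?_⟩
  obtain ⟨c1, hc1, hc1'⟩ := sn_lower φ D.pos
  obtain ⟨C1, hC1, hC1'⟩ := sn_upper φ
  obtain ⟨c2, hc2, hc2'⟩ := sn_lower Φ D.Pos
  obtain ⟨C2, hC2, hC2'⟩ := sn_upper Φ
  set c : ℝ := min c1 c2 with hc
  set C : ℝ := max C1 C2 with hC
  have hc0 : 0 < c := lt_min hc1 hc2
  have hC0 : 0 < C := lt_of_lt_of_le hC1 (le_max_left _ _)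
  have hv : ∀ v, c * ‖v‖ ≤ φ v ∧ φ v ≤ C * ‖v‖ := fun v =>
    ⟨(mul_le_mul_of_nonneg_right (min_le_left _ _) (norm_nonneg _)).trans (hc1' v),
      (hC1' v).trans (mul_le_mul_of_nonneg_right (le_max_left _ _) (norm_nonneg _))⟩
  have hx : ∀ x, c * ‖x‖ ≤ Φ x ∧ Φ x ≤ C * ‖x‖ := fun x =>
    ⟨(mul_le_mul_of_nonneg_right (min_le_right _ _) (norm_nonneg _)).trans (hc2' x),
      (hC2' x).trans (mul_le_mul_of_nonneg_right (le_max_right _ _) (norm_nonneg _))⟩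
  have hA1 : ∀ (ν : X) (A : V →L[𝕜] X), A ∈ PP φ Φ ν → ∀ v, c / C * ‖v‖ ≤ ‖A v‖ := by
    intro ν A hA v
    have h3 := (hx (A v)).2
    rw [hA.1 v] at h3
    have h4 := (hv v).1
    rw [div_mul_eq_mul_div, div_le_iff₀ hC0]
    linarith
  have hA2 : ∀ (ν : X) (A : V →L[𝕜] X), A ∈ PP φ Φ ν → ‖A‖ ≤ C / c := by
    intro ν A hA
    refine ContinuousLinearMap.opNorm_le_bound _ (by positivity) fun v => ?_
    have h3 := (hx (A v)).1
    rw [hA.1 v] at h3
    have h4 := (hv v).2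
    rw [div_mul_eq_mul_div, le_div_iff₀ hc0]
    linarith
  refine ⟨min c (c / C), max C (C / c), lt_min hc0 (by positivity),
    lt_of_lt_of_le hC0 (le_max_left _ _), fun v => ⟨?_, ?_⟩, fun x => ⟨?_, ?_⟩,
    fun ν A hA => ⟨fun v => ?_, ?_⟩, fun ν A hν0 hA x hx0 => ?_⟩
  · exact (mul_le_mul_of_nonneg_right (min_le_left _ _) (norm_nonneg _)).trans (hv v).1
  · exact (hv v).2.trans (mul_le_mul_of_nonneg_right (le_max_left _ _) (norm_nonneg _))
  · exact (mul_le_mul_of_nonneg_right (min_le_left _ _) (norm_nonneg _)).trans (hx x).1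
  · exact (hx x).2.trans (mul_le_mul_of_nonneg_right (le_max_left _ _) (norm_nonneg _))
  · exact (mul_le_mul_of_nonneg_right (min_le_right _ _) (norm_nonneg _)).trans (hA1 ν A hA v)
  · exact (hA2 ν A hA).trans (le_max_right _ _)
  · have hinj : Function.Injective (A : V →ₗ[𝕜] X) := by
      rw [injective_iff_map_eq_zero]
      intro v hv0
      have h3 := hA1 ν A hA v
      have h4 : A v = 0 := hv0
      rw [h4, norm_zero] at h3
      have h5 : 0 < c / C := by positivity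
      have h6 : ‖v‖ ≤ 0 := by
        by_contra h7
        push Not at h7
        have := mul_pos h5 h7
        linarith
      exact norm_le_zero_iff.1 h6
    have : Fact (Module.finrank 𝕜 X = Module.finrank 𝕜 V + 1) := ⟨D.dim⟩
    have h8 : Module.finrank 𝕜 (Submodule.span 𝕜 {ν})ᗮ = Module.finrank 𝕜 V :=
      Submodule.finrank_orthogonal_span_singleton hν0
    have h9 : Module.finrank 𝕜 (LinearMap.range (A : V →ₗ[𝕜] X)) = Module.finrank 𝕜 V :=
      LinearMap.finrank_range_of_inj hinj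
    have h10 : LinearMap.range (A : V →ₗ[𝕜] X) ≤ (Submodule.span 𝕜 {ν})ᗮ := by
      rintro _ ⟨v, rfl⟩
      rw [Submodule.mem_orthogonal_singleton_iff_inner_right]
      exact hA.2 v
    have h11 := Submodule.eq_of_le_of_finrank_eq h10 (by rw [h8, h9])
    have h12 : x ∈ (Submodule.span 𝕜 {ν})ᗮ := by
      rw [Submodule.mem_orthogonal_singleton_iff_inner_right]
      exact hx0
    rw [← h11] at h12
    obtain ⟨v, hv1⟩ := h12
    exact ⟨v, hv1⟩

theorem near (hEB : EBStmt) (hBAS : BASStmt) : NEARStmt := by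
  intro 𝕜 _ V X _ _ _ _ _ _ φ Φ D L R hR
  obtain ⟨-, c, C, hc, hC, -, hx, hA, hsur⟩ := hBAS 𝕜 V X φ Φ D
  obtain ⟨C1, hC1, hEB'⟩ := hEB 𝕜 V φ D.pos D.iso (L * C)
  set C2 : ℝ := C * C with hC2
  have hC20 : 0 ≤ C2 := by positivity
  refine ⟨max (C1 * C2) (C + C * (C1 * C2)), le_max_of_le_left (by positivity), ?_⟩
  intro ν ν' A A' hν hν' hAν hAν'
  have hν0 : ν' ≠ 0 := by
    rintro rfl
    rw [norm_zero] at hν'
    exact zero_ne_one hν'
  obtain ⟨hR1, hR2, hR3⟩ := hR ν' A' hν' hAν'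
  have hAn : ‖A‖ ≤ C := (hA ν A hAν).2
  have hAn' : ‖A'‖ ≤ C := (hA ν' A' hAν').2
  set g : V →L[𝕜] V := (R A').comp A with hg
  have hproj : ∀ v, A' (g v) = A v - (inner 𝕜 ν' (A v) : 𝕜) • ν' := by
    intro v
    have h1 : inner 𝕜 ν' (A v - (inner 𝕜 ν' (A v) : 𝕜) • ν') = 0 := by
      rw [inner_sub_right, inner_smul_right, inner_self_eq_norm_sq_to_K, hν']
      simp
    obtain ⟨w, hw⟩ := hsur ν' A' hν0 hAν' _ h1
    have h2 : R A' ν' = 0 := hR2 ν' fun u => by rw [inner_eq_zero_symm]; exact hAν'.2 u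
    have h3 : g v = w := by
      show R A' (A v) = w
      have h4 : A v = A' w + (inner 𝕜 ν' (A v) : 𝕜) • ν' := by rw [hw]; abel
      rw [h4, map_add, hR1, map_smul, h2, smul_zero, add_zero]
    rw [h3, hw]
  have hdiff : ∀ v, ‖A v - A' (g v)‖ ≤ C * ‖ν - ν'‖ * ‖v‖ := by
    intro v
    rw [hproj v, sub_sub_cancel, norm_smul, hν', mul_one]
    have h1 : inner 𝕜 ν' (A v) = inner 𝕜 (ν' - ν) (A v) := by
      rw [inner_sub_left, hAν.2 v, sub_zero]
    rw [h1]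
    calc ‖inner 𝕜 (ν' - ν) (A v)‖ ≤ ‖ν' - ν‖ * ‖A v‖ := norm_inner_le_norm _ _
      _ ≤ ‖ν' - ν‖ * (C * ‖v‖) := by
          gcongr
          exact (A.le_opNorm v).trans (mul_le_mul_of_nonneg_right hAn (norm_nonneg _))
      _ = C * ‖ν - ν'‖ * ‖v‖ := by rw [norm_sub_rev]; ring
  have hgn : ‖g‖ ≤ L * C := by
    calc ‖g‖ ≤ ‖R A'‖ * ‖A‖ := ContinuousLinearMap.opNorm_comp_le _ _
      _ ≤ L * C := mul_le_mul hR3 hAn (norm_nonneg _) ((norm_nonneg _).trans hR3)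
  have hphi : ∀ v, |φ (g v) - φ v| ≤ C2 * ‖ν - ν'‖ * ‖v‖ := by
    intro v
    rw [← hAν'.1 (g v), ← hAν.1 v]
    have h1 : |Φ (A' (g v)) - Φ (A v)| ≤ C * ‖A' (g v) - A v‖ :=
      sn_abs_sub Φ (fun x => (hx x).2) _ _
    have h4 : ‖A' (g v) - A v‖ ≤ C * ‖ν - ν'‖ * ‖v‖ := by
      rw [norm_sub_rev]; exact hdiff v
    have h6 : C * ‖A' (g v) - A v‖ ≤ C * (C * ‖ν - ν'‖ * ‖v‖) :=
      mul_le_mul_of_nonneg_left h4 hC.le
    calc |Φ (A' (g v)) - Φ (A v)| ≤ C * (C * ‖ν - ν'‖ * ‖v‖) := by linarith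
      _ = C2 * ‖ν - ν'‖ * ‖v‖ := by rw [hC2]; ring
  obtain ⟨κ, hκ, hκ'⟩ := hEB' g (C2 * ‖ν - ν'‖) hgn (by positivity) hphi
  refine ⟨κ, hκ, ?_, ?_, ?_, ?_⟩
  · refine hκ'.trans ?_
    rw [← mul_assoc]
    exact mul_le_mul_of_nonneg_right (le_max_left _ _) (norm_nonneg _)
  · refine ContinuousLinearMap.opNorm_le_bound _ (by positivity) fun v => ?_
    have h1 : (A - A'.comp κ) v = (A v - A' (g v)) + A' ((g - κ) v) := by
      have h0 : A' ((g - κ) v) = A' (g v) - A' (κ v) := by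
        rw [← map_sub]; rfl
      rw [h0]
      show A v - A' (κ v) = _
      abel
    have h2 : ‖A' ((g - κ) v)‖ ≤ C * (C1 * (C2 * ‖ν - ν'‖) * ‖v‖) := by
      calc ‖A' ((g - κ) v)‖ ≤ ‖A'‖ * ‖(g - κ) v‖ := A'.le_opNorm _
        _ ≤ C * (C1 * (C2 * ‖ν - ν'‖) * ‖v‖) := by
            refine mul_le_mul hAn' ?_ (norm_nonneg _) hC.le
            exact ((g - κ).le_opNorm v).trans (mul_le_mul_of_nonneg_right hκ' (norm_nonneg _))
    rw [h1]
    calc ‖A v - A' (g v) + A' ((g - κ) v)‖ ≤ ‖A v - A' (g v)‖ + ‖A' ((g - κ) v)‖ :=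
          norm_add_le _ _
      _ ≤ C * ‖ν - ν'‖ * ‖v‖ + C * (C1 * (C2 * ‖ν - ν'‖) * ‖v‖) := add_le_add (hdiff v) h2
      _ = (C + C * (C1 * C2)) * ‖ν - ν'‖ * ‖v‖ := by ring
      _ ≤ max (C1 * C2) (C + C * (C1 * C2)) * ‖ν - ν'‖ * ‖v‖ := by
          gcongr
          exact le_max_right _ _
  · intro v
    show Φ (A' (κ v)) = φ v
    rw [hAν'.1, hκ]
  · intro v
    exact hAν'.2 (κ v)

end Main

end Pool.Agent.BAN.H48
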